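import Mathlib
import Pool.Agent.H47.ProcessBound
import Pool.Agent.H47.ZContain

/-!
`M_H(n) = O(n^{3/2})` for `H = K_{3,3}` and for the cube graph `H = Q_3`.
-/

set_option autoImplicit false

namespace Pool.Agent.Results.MP_01cec5_co.UpperBounds

open Pool.Agent.H47.BootstrapTime Pool.Agent.H47.ProcessBound Pool.Agent.H47.ZContain

theorem ke_mem : ke ∈ K33.edgeSet := by
  unfold ke
  rw [SimpleGraph.mem_edgeSet]
  decide

theorem qe_mem : qe ∈ Q3.edgeSet := by
  unfold qe
  rw [SimpleGraph.mem_edgeSet]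
  decide

theorem three_le_K33 (_ : Fintype K33.edgeSet) : 3 ≤ K33.edgeFinset.card := by
  have hsub : ({s(Sum.inl 0, Sum.inr 0), s(Sum.inl 0, Sum.inr 1), s(Sum.inl 0, Sum.inr 2)} :
      Finset (Sym2 (Fin 3 ⊕ Fin 3))) ⊆ K33.edgeFinset := by
    intro f hf
    rw [SimpleGraph.mem_edgeFinset]
    simp only [Finset.mem_insert, Finset.mem_singleton] at hf
    rcases hf with rfl | rfl | rfl <;> rw [SimpleGraph.mem_edgeSet] <;> decide
  refine le_trans ?_ (Finset.card_le_card hsub)
  decide

theorem three_le_Q3 (_ : Fintype Q3.edgeSet) : 3 ≤ Q3.edgeFinset.card := by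
  have hsub : ({s(![false, false, false], ![true, false, false]),
      s(![false, false, false], ![false, true, false]),
      s(![false, false, false], ![false, false, true])} :
      Finset (Sym2 (Fin 3 → Bool))) ⊆ Q3.edgeFinset := by
    intro f hf
    rw [SimpleGraph.mem_edgeFinset]
    simp only [Finset.mem_insert, Finset.mem_singleton] at hf
    rcases hf with rfl | rfl | rfl <;> rw [SimpleGraph.mem_edgeSet] <;> decide
  refine le_trans ?_ (Finset.card_le_card hsub)
  decide

/-- There is a constant `C` such that, for all `n`, the maximum running times of the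
`K_{3,3}`-process and of the `Q_3`-process on `n` vertices are at most `C n^{3/2}`. -/
theorem result : ∃ C : ℝ, ∀ n : ℕ,
    (maxTime K33 n : ℝ) ≤ C * (n : ℝ) ^ (3 / 2 : ℝ) ∧
    (maxTime Q3 n : ℝ) ≤ C * (n : ℝ) ^ (3 / 2 : ℝ) := by
  classical
  have e1 := extremal_le K33 ke kidx kidx_inj kidx_hom
  have e2 := extremal_le Q3 qe qidx qidx_inj qidx_hom
  have h30 : (0 : ℝ) ≤ 3 := by norm_num
  have ha : (1 : ℝ) < 3 / 2 := by norm_num
  have hb : (3 / 2 : ℝ) ≤ 2 := by norm_num
  obtain ⟨C1, hC1, h1⟩ := runningTime_le K33 ke ke_mem (three_le_K33 _) 3 (3 / 2)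
    h30 ha hb e1
  obtain ⟨C2, hC2, h2⟩ := runningTime_le Q3 qe qe_mem (three_le_Q3 _) 3 (3 / 2)
    h30 ha hb e2
  refine ⟨max C1 C2, fun n => ⟨?_, ?_⟩⟩
  · exact (h1 n).trans (mul_le_mul_of_nonneg_right (le_max_left _ _) (by positivity))
  · exact (h2 n).trans (mul_le_mul_of_nonneg_right (le_max_right _ _) (by positivity))

end Pool.Agent.Results.MP_01cec5_co.UpperBounds
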